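import Pool.Agent.W323.PT.Stm

/-! PT-Main: from the combinatorial theorem to the theorem on weights. -/

set_option autoImplicit false

open Pool.Agent.W323.PT

namespace Pool.Agent.W374.PT

theorem main : S_CC → S_Samp → S_Succ → S_Line → S_Main := by
  intro hCC hSamp hSucc hLine
  obtain ⟨m, hm⟩ := hCC
  obtain ⟨β, hβ, hS⟩ := hSamp m
  refine ⟨β / 7, by positivity, ?_⟩
  intro ι _ w P F hw hw1 hconv hmass
  by_contra hP
  have hδ : 0 < β / 7 := by positivity
  obtain ⟨f, hf1, hf2⟩ := hS ι w P hw hw1 (by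
    intro a b e hab
    by_contra hlt
    push Not at hlt
    exact hP (hLine ι w P F (β / 7) hδ hw hconv hmass a b e hab (by linarith))) (by
    intro c r1 r2 r3 r4 bx by' hfan
    by_contra hcon
    push Not at hcon
    obtain ⟨h1, h2, h3⟩ := hcon
    exact hP (hSucc ι w P F (β / 7) hδ hw hconv hmass c r1 r2 r3 r4 bx by' hfan
      (by linarith) (by linarith) (by linarith)))
  exact hf2 (hm _ hf1)

end Pool.Agent.W374.PT
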